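import Pool.Agent.P8H9.UO.StmG

/-!
# Project UO, package CPR: coprime levels
-/

set_option autoImplicit false

namespace Pool.Agent.P8H7.UO

open Pool.Agent.P8H9.UO Pool.Agent.Q19.SU.Gen

theorem cpr : S_CPR := by
  intro G V _ _ ρ hρ N n n' m P Q P' Q' hB hB' h h' a b c d hdet hNa hNb hNc hNd
  push_cast at hdet
  obtain ⟨σ, hσ, h1, h2, h3⟩ := h a b c d ((Dvd.intro _ rfl).trans hdet) hNa hNb hNc hNd
  obtain ⟨σ', hσ', h1', h2', h3'⟩ := h' a b c d ((Dvd.intro_left _ rfl).trans hdet) hNa hNb hNc hNd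
  have kn : ∀ R : V, (n : ℤ) • R = 0 → ρ σ' R = R := by
    intro R hR
    apply h3'
    push_cast
    rw [mul_comm, mul_smul, hR, smul_zero]
  have kn' : ∀ R : V, (n' : ℤ) • R = 0 → ρ σ R = R := by
    intro R hR
    apply h3
    push_cast
    rw [mul_comm, mul_smul, hR, smul_zero]
  refine ⟨σ * σ', mul_mem hσ hσ', ?_, ?_, ?_⟩
  · rw [hρ.mul, map_add, h1', kn P hB.hP, map_add, h1, map_add, map_zsmul, map_zsmul,
      kn' P' hB'.hP, kn' Q' hB'.hQ]
    module
  · rw [hρ.mul, map_add, h2', kn Q hB.hQ, map_add, h2, map_add, map_zsmul, map_zsmul,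
      kn' P' hB'.hP, kn' Q' hB'.hQ]
    module
  · intro R hR
    rw [hρ.mul, h3' R (by push_cast; rw [mul_smul, hR, smul_zero]),
      h3 R (by push_cast; rw [mul_smul, hR, smul_zero])]

end Pool.Agent.P8H7.UO
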